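import Pool.Agent.helper27.SY.Spec

/-!
# Project sy (MP_5628fe_nt), module CNT
-/

set_option autoImplicit false

namespace Pool.Agent.SY

open Finset ArithmeticFunction Pool.Agent.SX Pool.Agent.helper85.BVP

theorem CNT_wH (H p : ℕ) (hH : 1 ≤ H) (hp : p ∈ Pr H) : 0 ≤ wH H p := by
  unfold Pr at hp
  rw [mem_filter] at hp
  obtain ⟨-, hpp, -, h10⟩ := hp
  unfold wH
  have h2 : 0 < Real.log 2 := Real.log_pos (by norm_num)
  have hH' : (1 : ℝ) ≤ H := by exact_mod_cast hH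
  have hp0 : (0 : ℝ) < p := by exact_mod_cast hpp.pos
  have h1 : ((p : ℝ)) ^ 10 ≤ 2 ^ H := by exact_mod_cast h10.le
  have h3 : Real.log ((p : ℝ) ^ 10) ≤ Real.log (2 ^ H) :=
    Real.log_le_log (by positivity) h1
  rw [Real.log_pow, Real.log_pow] at h3
  push_cast at h3
  have h4 : Real.log p / (H * (Real.log 2 / 10)) ≤ 1 := by
    rw [div_le_one (by positivity)]
    linarith
  linarith

theorem CNT_cnt (K y H : ℕ) (F : Finset ℕ) (hF : F ⊆ Pr H) : (cnt K y F : ℝ) =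
    ∑ k ∈ Ioc y (y + K), if F ⊆ (Pr H).filter (fun p => p ∣ (30 * k + 1) * (30 * k + 7)) then (1 : ℝ) else 0 := by
  unfold cnt
  rw [card_filter]
  push_cast
  refine sum_congr rfl fun k _ => ?_
  have h : (∀ p ∈ F, p ∣ (30 * k + 1) * (30 * k + 7)) ↔
      F ⊆ (Pr H).filter (fun p => p ∣ (30 * k + 1) * (30 * k + 7)) := by
    constructor
    · intro h p hp
      exact mem_filter.2 ⟨hF hp, h p hp⟩
    · intro h p hp
      exact (mem_filter.1 (h hp)).2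
  by_cases hc : F ⊆ (Pr H).filter (fun p => p ∣ (30 * k + 1) * (30 * k + 7))
  · rw [if_pos hc, if_pos (h.2 hc)]
  · rw [if_neg hc, if_neg (fun h' => hc (h.1 h'))]

/-- Module CNT. -/
theorem CNT : CNT_stmt := by
  classical
  intro C K y h H B b μ hhH hH hb hCW
  obtain ⟨hC1, hC2, hC3, hC4⟩ := hCW
  -- the left side
  have e1 : (K : ℝ) * μ + RR C (Pr H) K y ≤ ∑ F ∈ (Pr H).powerset, C F * (cnt K y F : ℝ) := by
    unfold RR rr
    have : ∑ F ∈ (Pr H).powerset, C F * ((cnt K y F : ℝ) - K * g F) =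
        ∑ F ∈ (Pr H).powerset, C F * (cnt K y F : ℝ) - K * ∑ F ∈ (Pr H).powerset, C F * g F := by
      rw [mul_sum, ← sum_sub_distrib]
      refine sum_congr rfl fun F _ => ?_
      ring
    rw [this]
    have := mul_le_mul_of_nonneg_left hC4 (Nat.cast_nonneg (α := ℝ) K)
    linarith
  have e2 : ∑ F ∈ (Pr H).powerset, C F * (cnt K y F : ℝ) = ∑ k ∈ Ioc y (y + K),
      ∑ F ∈ ((Pr H).filter (fun p => p ∣ (30 * k + 1) * (30 * k + 7))).powerset, C F := by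
    have : ∀ F ∈ (Pr H).powerset, C F * (cnt K y F : ℝ) = ∑ k ∈ Ioc y (y + K),
        if F ⊆ (Pr H).filter (fun p => p ∣ (30 * k + 1) * (30 * k + 7)) then C F else 0 := by
      intro F hF
      rw [CNT_cnt K y H F (mem_powerset.1 hF), mul_sum]
      refine sum_congr rfl fun k _ => ?_
      split_ifs <;> simp
    rw [sum_congr rfl this, sum_comm]
    refine sum_congr rfl fun k _ => ?_
    rw [← sum_filter]
    refine sum_congr ?_ fun _ _ => rfl
    ext F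
    simp only [mem_filter, mem_powerset]
    constructor
    · rintro ⟨-, h2⟩
      exact h2
    · intro h2
      exact ⟨h2.trans (filter_subset _ _), h2⟩
  -- the right side
  have e3 : ((Gk K y h H b).card : ℝ) + ∑ p ∈ Bl h H, (sq K y p : ℝ) = ∑ k ∈ Ioc y (y + K),
      ((if (∀ p ∈ Pr h, ¬ p ∣ (30 * k + 1) * (30 * k + 7)) ∧
        (∀ p ∈ Pr H, ¬ p ^ 2 ∣ 30 * k + 1 ∧ ¬ p ^ 2 ∣ 30 * k + 7) ∧
        ∑ p ∈ (Pr H).filter (fun p => p ∣ (30 * k + 1) * (30 * k + 7)), wH H p < b then (1 : ℝ) else 0) +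
        ∑ p ∈ Bl h H, if p ^ 2 ∣ 30 * k + 1 ∨ p ^ 2 ∣ 30 * k + 7 then (1 : ℝ) else 0) := by
    rw [sum_add_distrib]
    congr 1
    · unfold Gk
      rw [card_filter]
      push_cast
      refine sum_congr rfl fun k _ => ?_
      congr
    · rw [sum_comm]
      refine sum_congr rfl fun p _ => ?_
      unfold sq
      rw [card_filter]
      push_cast
      rfl
  refine e1.trans ?_
  rw [e2, e3]
  refine sum_le_sum fun k _ => ?_
  set Γ := (Pr H).filter (fun p => p ∣ (30 * k + 1) * (30 * k + 7)) with hΓ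
  have hΓs : Γ ⊆ Pr H := filter_subset _ _
  refine (hC3 Γ hΓs).trans ?_
  have hs0 : 0 ≤ ∑ p ∈ Bl h H, if p ^ 2 ∣ 30 * k + 1 ∨ p ^ 2 ∣ 30 * k + 7 then (1 : ℝ) else 0 :=
    sum_nonneg fun p _ => by split_ifs <;> norm_num
  have hw0 : 0 ≤ ∑ p ∈ Γ, wH H p := sum_nonneg fun p hp => CNT_wH H p hH (hΓs hp)
  have hb' : 0 ≤ 1 / b * ∑ p ∈ Γ, wH H p := mul_nonneg (by positivity) hw0
  by_cases hcond : Γ ∩ Pr h = ∅
  · rw [if_pos hcond]
    have hno : ∀ p ∈ Pr h, p ∈ Pr H → ¬ p ∣ (30 * k + 1) * (30 * k + 7) := by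
      intro p hp hpH hd
      have : p ∈ Γ ∩ Pr h := mem_inter.2 ⟨mem_filter.2 ⟨hpH, hd⟩, hp⟩
      rw [hcond] at this
      exact absurd this (notMem_empty p)
    have hsub : ∀ p ∈ Pr h, p ∈ Pr H := by
      intro p hp
      unfold Pr at hp ⊢
      rw [mem_filter, mem_range] at hp ⊢
      obtain ⟨h1, h2, h3, h4⟩ := hp
      refine ⟨h1.trans_le (Nat.pow_le_pow_right (by norm_num) (by
        have := Nat.div_le_div_right (c := 10) hhH
        omega)), h2, h3, h4.trans_le (Nat.pow_le_pow_right (by norm_num) hhH)⟩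
    by_cases hsq : ∀ p ∈ Pr H, ¬ p ^ 2 ∣ 30 * k + 1 ∧ ¬ p ^ 2 ∣ 30 * k + 7
    · by_cases hlt : ∑ p ∈ Γ, wH H p < b
      · rw [if_pos ⟨fun p hp => hno p hp (hsub p hp), hsq, hlt⟩]
        linarith
      · have h1 : 1 ≤ 1 / b * ∑ p ∈ Γ, wH H p := by
          rw [one_div_mul_eq_div, le_div_iff₀ hb]
          linarith [not_lt.1 hlt]
        have h2 : (0 : ℝ) ≤ if (∀ p ∈ Pr h, ¬ p ∣ (30 * k + 1) * (30 * k + 7)) ∧
            (∀ p ∈ Pr H, ¬ p ^ 2 ∣ 30 * k + 1 ∧ ¬ p ^ 2 ∣ 30 * k + 7) ∧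
            ∑ p ∈ Γ, wH H p < b then (1 : ℝ) else 0 := by split_ifs <;> norm_num
        linarith
    · push Not at hsq
      obtain ⟨p, hpH, hp⟩ := hsq
      have hd : p ^ 2 ∣ 30 * k + 1 ∨ p ^ 2 ∣ 30 * k + 7 := by
        by_cases h1 : p ^ 2 ∣ 30 * k + 1
        · exact Or.inl h1
        · exact Or.inr (hp h1)
      have hpd : p ∣ (30 * k + 1) * (30 * k + 7) := by
        rcases hd with h1 | h1
        · exact Dvd.dvd.mul_right ((dvd_pow_self p (by norm_num)).trans h1) _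
        · exact Dvd.dvd.mul_left ((dvd_pow_self p (by norm_num)).trans h1) _
      have hph : p ∉ Pr h := fun h1 => hno p h1 hpH hpd
      have hpB : p ∈ Bl h H := by
        unfold Bl
        exact mem_sdiff.2 ⟨hpH, hph⟩
      have h3 : (1 : ℝ) ≤ ∑ p ∈ Bl h H, if p ^ 2 ∣ 30 * k + 1 ∨ p ^ 2 ∣ 30 * k + 7 then (1 : ℝ) else 0 := by
        have := single_le_sum (f := fun p => if p ^ 2 ∣ 30 * k + 1 ∨ p ^ 2 ∣ 30 * k + 7 then (1 : ℝ) else 0)
          (fun q _ => by positivity) hpB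
        simpa [hd] using this
      have h2 : (0 : ℝ) ≤ if (∀ p ∈ Pr h, ¬ p ∣ (30 * k + 1) * (30 * k + 7)) ∧
          (∀ p ∈ Pr H, ¬ p ^ 2 ∣ 30 * k + 1 ∧ ¬ p ^ 2 ∣ 30 * k + 7) ∧
          ∑ p ∈ Γ, wH H p < b then (1 : ℝ) else 0 := by split_ifs <;> norm_num
      linarith
  · rw [if_neg hcond]
    have h2 : (0 : ℝ) ≤ if (∀ p ∈ Pr h, ¬ p ∣ (30 * k + 1) * (30 * k + 7)) ∧
        (∀ p ∈ Pr H, ¬ p ^ 2 ∣ 30 * k + 1 ∧ ¬ p ^ 2 ∣ 30 * k + 7) ∧
        ∑ p ∈ Γ, wH H p < b then (1 : ℝ) else 0 := by split_ifs <;> norm_num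
    linarith

end Pool.Agent.SY
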